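import Pool.Agent.REV.StmtsP3

/-!
# Squad REV: module PUP, scaling
-/

set_option autoImplicit false

namespace Pool.Agent.REV.H86

open Set MeasureTheory Filter
open scoped Topology

theorem scaleU {p : ℝ} {U : ℝ → ℝ} (hm : MonotoneOn (fun b : ℝ => b ^ (p + 4) * U b) (Ioi 0))
    {l s : ℝ} (hl : 1 ≤ l) (hs : 0 < s) : U (l⁻¹ * s) ≤ l ^ (p + 4) * U s := by
  have hl0 : 0 < l := by linarith
  have h1 : 0 < l⁻¹ * s := by positivity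
  have h2 : l⁻¹ * s ≤ s := by
    have : l⁻¹ ≤ 1 := inv_le_one_of_one_le₀ hl
    nlinarith
  have h3 := hm (mem_Ioi.2 h1) (mem_Ioi.2 hs) h2
  simp only at h3
  rw [Real.mul_rpow (by positivity) hs.le, Real.inv_rpow hl0.le] at h3
  have h4 : 0 < s ^ (p + 4) := Real.rpow_pos_of_pos hs _
  have h5 : 0 < l ^ (p + 4) := Real.rpow_pos_of_pos hl0 _
  have h6 : s ^ (p + 4) * ((l ^ (p + 4))⁻¹ * U (l⁻¹ * s)) ≤ s ^ (p + 4) * U s := by linarith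
  have h7 := le_of_mul_le_mul_left h6 h4
  rwa [inv_mul_le_iff₀ h5] at h7

theorem sqrt_scale {l k x : ℝ} (hl : 0 < l) :
    Real.sqrt ((l⁻¹ * k) ^ 2 + (l⁻¹ * x) ^ 2) = l⁻¹ * Real.sqrt (k ^ 2 + x ^ 2) := by
  have h : (l⁻¹ * k) ^ 2 + (l⁻¹ * x) ^ 2 = l⁻¹ ^ 2 * (k ^ 2 + x ^ 2) := by ring
  rw [h, Real.sqrt_mul (by positivity), Real.sqrt_sq (by positivity)]

theorem vV_scale (PIN : PinStmt) {M p : ℝ} {U : ℝ → ℝ} (hU : UU M U)
    (hm : MonotoneOn (fun b : ℝ => b ^ (p + 4) * U b) (Ioi 0)) {l k : ℝ} (hl : 1 ≤ l) (hk : 0 < k) :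
    vV U (l⁻¹ * k) ≤ l⁻¹ * (l ^ (p + 4) * vV U k) := by
  have hl0 : 0 < l := by linarith
  obtain ⟨i1, -, -, -⟩ := PIN M U hU k hk.le
  have e := integral_comp_mul_left_Ioi (fun τ : ℝ => U (Real.sqrt ((l⁻¹ * k) ^ 2 + τ ^ 2))) 0
    (b := l⁻¹) (by positivity)
  rw [mul_zero, inv_inv, smul_eq_mul] at e
  have e2 : vV U (l⁻¹ * k) =
      l⁻¹ * ∫ x in Ioi (0 : ℝ), U (Real.sqrt ((l⁻¹ * k) ^ 2 + (l⁻¹ * x) ^ 2)) := by
    rw [e]
    unfold vV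
    rw [← mul_assoc, inv_mul_cancel₀ hl0.ne', one_mul]
  rw [e2]
  refine mul_le_mul_of_nonneg_left ?_ (by positivity)
  unfold vV
  rw [← integral_const_mul]
  refine integral_mono_of_nonneg (Eventually.of_forall fun x => ?_) (i1.const_mul _)
    (Eventually.of_forall fun x => ?_)
  · exact (hU.pos _ (Real.sqrt_nonneg _)).le
  · simp only
    rw [sqrt_scale hl0]
    exact scaleU hm hl (Real.sqrt_pos.2 (by positivity))

theorem wW_scale (PIN : PinStmt) {M p : ℝ} {U : ℝ → ℝ} (hU : UU M U)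
    (hm : MonotoneOn (fun b : ℝ => b ^ (p + 4) * U b) (Ioi 0)) {l k : ℝ} (hl : 1 ≤ l) (hk : 0 < k) :
    wW U (l⁻¹ * k) ≤ l⁻¹ * (l⁻¹ ^ 2 * l ^ (p + 4) * wW U k) := by
  have hl0 : 0 < l := by linarith
  obtain ⟨-, i2, -, -⟩ := PIN M U hU k hk.le
  have e := integral_comp_mul_left_Ioi
    (fun τ : ℝ => τ ^ 2 * U (Real.sqrt ((l⁻¹ * k) ^ 2 + τ ^ 2))) 0 (b := l⁻¹) (by positivity)
  rw [mul_zero, inv_inv, smul_eq_mul] at e
  have e2 : wW U (l⁻¹ * k) =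
      l⁻¹ * ∫ x in Ioi (0 : ℝ),
        (l⁻¹ * x) ^ 2 * U (Real.sqrt ((l⁻¹ * k) ^ 2 + (l⁻¹ * x) ^ 2)) := by
    rw [e]
    unfold wW
    rw [← mul_assoc, inv_mul_cancel₀ hl0.ne', one_mul]
  rw [e2]
  refine mul_le_mul_of_nonneg_left ?_ (by positivity)
  unfold wW
  rw [← integral_const_mul]
  refine integral_mono_of_nonneg (Eventually.of_forall fun x => ?_) (i2.const_mul _)
    (Eventually.of_forall fun x => ?_)
  · exact mul_nonneg (sq_nonneg _) (hU.pos _ (Real.sqrt_nonneg _)).le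
  · simp only
    rw [sqrt_scale hl0]
    have h1 := scaleU hm hl (s := Real.sqrt (k ^ 2 + x ^ 2)) (Real.sqrt_pos.2 (by positivity))
    have h2 : 0 ≤ (l⁻¹ * x) ^ 2 := sq_nonneg _
    calc (l⁻¹ * x) ^ 2 * U (l⁻¹ * Real.sqrt (k ^ 2 + x ^ 2))
        ≤ (l⁻¹ * x) ^ 2 * (l ^ (p + 4) * U (Real.sqrt (k ^ 2 + x ^ 2))) :=
          mul_le_mul_of_nonneg_left h1 h2
      _ = l⁻¹ ^ 2 * l ^ (p + 4) * (x ^ 2 * U (Real.sqrt (k ^ 2 + x ^ 2))) := by ring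

theorem pup (PIN : PinStmt) : PupStmt := by
  intro C M p U hC hp hU hE hm b b' hb hbb
  have hb' : 0 < b' := by linarith
  set l := b' / b with hl
  have hl1 : 1 ≤ l := by rw [hl, le_div_iff₀ hb]; linarith
  have hl0 : 0 < l := by linarith
  have hk : 0 < 1 / b := by positivity
  have hk' : 1 / b' = l⁻¹ * (1 / b) := by rw [hl]; field_simp
  have hbl : b' = l * b := by rw [hl]; field_simp
  obtain ⟨-, -, v1, w1⟩ := PIN M U hU (1 / b) hk.le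
  obtain ⟨-, -, v2, w2⟩ := PIN M U hU (l⁻¹ * (1 / b)) (by positivity)
  have hV := vV_scale PIN hU hm hl1 hk
  have hW := wW_scale PIN hU hm hl1 hk
  rw [hE b' hb', hE b hb, hk']
  have hVW : vV U (l⁻¹ * (1 / b)) * wW U (l⁻¹ * (1 / b)) ≤
      (l⁻¹ * (l ^ (p + 4) * vV U (1 / b))) * (l⁻¹ * (l⁻¹ ^ 2 * l ^ (p + 4) * wW U (1 / b))) :=
    mul_le_mul hV hW w2.le (by positivity)
  have e1 : l ^ (p + 4) = l ^ p * l ^ 4 := by
    rw [Real.rpow_add hl0]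
    norm_num
  have e2 : l ^ (2 * p) = l ^ p * l ^ p := by
    rw [two_mul, Real.rpow_add hl0]
  have e3 : C * ((b' ^ 4)⁻¹ * ((l⁻¹ * (l ^ (p + 4) * vV U (1 / b))) *
      (l⁻¹ * (l⁻¹ ^ 2 * l ^ (p + 4) * wW U (1 / b))))) =
      l ^ (2 * p) * (C * ((b ^ 4)⁻¹ * (vV U (1 / b) * wW U (1 / b)))) := by
    rw [e1, e2, hbl]
    field_simp
  rw [← e3]
  refine mul_le_mul_of_nonneg_left ?_ hC.le
  exact mul_le_mul_of_nonneg_left hVW (by positivity)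

end Pool.Agent.REV.H86
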